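import Mathlib
import Pool.Agent.H686R3.SUnitPigeon

/-!
# The logarithmic error term in Vojta's inequality cannot be independent of `S`

`X = P¹` over an arbitrary number field `k`, `D = [0] + [1] + [∞]`, `A = O(1)`, `K_X = O(-2)`.
For a finite set `T` of rational primes let `S` consist of all infinite places of `k` and of the
finite places of `k` above the primes of `T`.  We show that for every `C` with
`0 < C < [k:ℚ] (|T| - 1)` and every constant `B`, infinitely many `x ∈ k` violate
`h_K(x) + m_S(D,x) < C log⁺ h_A(x) + d(x) + B`.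
-/

namespace Pool.Agent.Results.MP_e44225_nt.LogTermDependsOnS

open NumberField Real

/-- The standard local Weil function on `P¹(k) = k ∪ {∞}` attached to an absolute value `w` of `k`,
for the point `a` (`none` is the point `∞`), evaluated at the affine point `x ≠ a`:
`log (max(|x|,1) / |x - a|)` for `a ∈ k`, and `log max(|x|,1)` for `a = ∞`. -/
noncomputable def weil {k : Type*} [Field k] (w : k → ℝ) : Option k → k → ℝ
  | none, x => log (max (w x) 1)
  | some a, x => log (max (w x) 1) - log (w (x - a))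

/-- The proximity function `m_{S}(D, x)` for the reduced effective divisor `D` on `P¹` which is the
sum of the given finite set of `k`-rational points, relative to the set of places consisting of
all infinite places of `k` and the given finite set `S` of finite places.  It is normalised
relative to `k`: infinite places are counted with multiplicity `1` (real) or `2` (complex),
finite places carry the absolute value with `|π|_v = N(v)⁻¹`. -/
noncomputable def proximity {k : Type*} [Field k] [NumberField k] (S : Finset (FinitePlace k))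
    (D : Finset (Option k)) (x : k) : ℝ :=
  ∑ a ∈ D, ((∑ v : InfinitePlace k, (v.mult : ℝ) * weil v a x) + ∑ v ∈ S, weil v a x)

open Classical in
/-- The reduced effective divisor `[0] + [1] + [∞]` on `P¹`. -/
noncomputable def threePoints (k : Type*) [Field k] : Finset (Option k) := {some 0, some 1, none}

theorem finite_placesOver (k : Type*) [Field k] [NumberField k] (T : Finset ℕ) :
    {v : FinitePlace k | ∃ p ∈ T, p ≠ 0 ∧ v (p : k) ≠ 1}.Finite := by
  have h : ∀ p ∈ T, {v : FinitePlace k | p ≠ 0 ∧ v (p : k) ≠ 1}.Finite := by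
    intro p _
    by_cases hp : p = 0
    · simp [hp]
    · have h1 : ((p : k)) ≠ 0 := by exact_mod_cast hp
      refine (FinitePlace.hasFiniteMulSupport h1).subset ?_
      rintro v ⟨_, hv⟩
      exact hv
  refine (Set.Finite.biUnion T.finite_toSet h).subset ?_
  rintro v ⟨p, hp, hv⟩
  exact Set.mem_biUnion (Finset.mem_coe.mpr hp) hv

/-- The finite places of `k` lying above the rational primes in `T`, i.e. those at which some
`p ∈ T` does not have absolute value `1`. -/
noncomputable def placesOver (k : Type*) [Field k] [NumberField k] (T : Finset ℕ) :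
    Finset (FinitePlace k) := (finite_placesOver k T).toFinset

section
variable {k : Type*} [Field k] [NumberField k]

theorem mem_placesOver {T : Finset ℕ} {v : FinitePlace k} :
    v ∈ placesOver k T ↔ ∃ p ∈ T, p ≠ 0 ∧ v (p : k) ≠ 1 := by
  simp [placesOver]

theorem log_max_eq (t : ℝ) (ht : 0 ≤ t) : log (max t 1) = log⁺ t := by
  rw [posLog_eq_log_max_one ht, max_comm]

/-- the product formula, for a number which is a unit outside `S` -/
theorem product_formula_log (S : Finset (FinitePlace k)) (x : k) (hx0 : x ≠ 0)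
    (hS : ∀ v : FinitePlace k, v ∉ S → v x = 1) :
    (∑ v : InfinitePlace k, (v.mult : ℝ) * log (v x)) + ∑ v ∈ S, log (v x) = 0 := by
  have h := prod_abs_eq_one (K := k) hx0
  rw [finprod_eq_prod_of_mulSupport_subset (s := S)] at h
  · have h2 := congrArg Real.log h
    rw [Real.log_one, Real.log_mul, Real.log_prod, Real.log_prod] at h2
    · simpa [Real.log_pow] using h2
    · intro v _
      exact (FinitePlace.pos_iff.mpr hx0).ne'
    · intro v _
      exact (pow_pos (InfinitePlace.pos_iff.mpr hx0) _).ne'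
    · exact (Finset.prod_pos fun v _ => pow_pos (InfinitePlace.pos_iff.mpr hx0) _).ne'
    · exact (Finset.prod_pos fun v _ => FinitePlace.pos_iff.mpr hx0).ne'
  · intro v hv
    by_contra hvS
    exact hv (hS v hvS)

theorem height_eq (S : Finset (FinitePlace k)) (x : k)
    (hS : ∀ v : FinitePlace k, v ∉ S → v x = 1) :
    Height.logHeight₁ x = (∑ v : InfinitePlace k, (v.mult : ℝ) * log⁺ (v x)) +
      ∑ v ∈ S, log⁺ (v x) := by
  rw [logHeight₁_eq]
  congr 1
  apply finsum_eq_sum_of_support_subset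
  intro v hv
  by_contra hvS
  apply hv
  have := hS v hvS
  simp [this]

theorem main_ineq (S : Finset (FinitePlace k)) (x : k) (hx0 : x ≠ 0)
    (hS : ∀ v : FinitePlace k, v ∉ S → v x = 1) (ε : ℝ)
    (hx1 : x ≠ 1) (hε : ∀ v : InfinitePlace k, v (x - 1) = ε) :
    - (Module.finrank ℚ k : ℝ) * log ε ≤
      -2 * Height.logHeight₁ x + proximity S (threePoints k) x := by
  have hx1' : x - 1 ≠ 0 := sub_ne_zero.mpr hx1
  have hprod := product_formula_log S x hx0 hS
  have hh := height_eq S x hS
  have hD : proximity S (threePoints k) x =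
      ((∑ v : InfinitePlace k, (v.mult : ℝ) * weil v (some 0) x) + ∑ v ∈ S, weil v (some 0) x) +
      (((∑ v : InfinitePlace k, (v.mult : ℝ) * weil v (some 1) x) + ∑ v ∈ S, weil v (some 1) x) +
      ((∑ v : InfinitePlace k, (v.mult : ℝ) * weil v none x) + ∑ v ∈ S, weil v none x)) := by
    classical
    unfold proximity threePoints
    rw [Finset.sum_insert (by simp), Finset.sum_insert (by simp), Finset.sum_singleton]
  have e0 : (∑ v : InfinitePlace k, (v.mult : ℝ) * weil v (some 0) x) =
      (∑ v : InfinitePlace k, (v.mult : ℝ) * log⁺ (v x)) -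
      ∑ v : InfinitePlace k, (v.mult : ℝ) * log (v x) := by
    rw [← Finset.sum_sub_distrib]
    refine Finset.sum_congr rfl fun v _ => ?_
    simp only [weil, sub_zero]
    rw [log_max_eq _ (apply_nonneg v x)]; ring
  have e1 : (∑ v : InfinitePlace k, (v.mult : ℝ) * weil v (some 1) x) =
      (∑ v : InfinitePlace k, (v.mult : ℝ) * log⁺ (v x)) -
      (Module.finrank ℚ k : ℝ) * log ε := by
    have : (Module.finrank ℚ k : ℝ) * log ε = ∑ v : InfinitePlace k, (v.mult : ℝ) * log ε := by
      rw [← InfinitePlace.sum_mult_eq (K := k)]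
      push_cast
      rw [Finset.sum_mul]
    rw [this, ← Finset.sum_sub_distrib]
    refine Finset.sum_congr rfl fun v _ => ?_
    simp only [weil]
    rw [log_max_eq _ (apply_nonneg v x), hε v]; ring
  have e2 : (∑ v : InfinitePlace k, (v.mult : ℝ) * weil v none x) =
      (∑ v : InfinitePlace k, (v.mult : ℝ) * log⁺ (v x)) := by
    refine Finset.sum_congr rfl fun v _ => ?_
    simp only [weil]
    rw [log_max_eq _ (apply_nonneg v x)]
  have f0 : (∑ v ∈ S, weil v (some 0) x) =
      (∑ v ∈ S, log⁺ (v x)) - ∑ v ∈ S, log (v x) := by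
    rw [← Finset.sum_sub_distrib]
    refine Finset.sum_congr rfl fun v _ => ?_
    simp only [weil, sub_zero]
    rw [log_max_eq _ (apply_nonneg v x)]
  have f1 : 0 ≤ (∑ v ∈ S, weil v (some 1) x) := by
    refine Finset.sum_nonneg fun v _ => ?_
    simp only [weil]
    have h1 : v (x - 1) ≤ max (v x) 1 := by
      have := FinitePlace.add_le v x (-1)
      simpa [sub_eq_add_neg] using this
    have h2 : 0 < v (x - 1) := FinitePlace.pos_iff.mpr hx1'
    have := Real.log_le_log h2 h1
    linarith
  have f2 : (∑ v ∈ S, weil v none x) = (∑ v ∈ S, log⁺ (v x)) := by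
    refine Finset.sum_congr rfl fun v _ => ?_
    simp only [weil]
    rw [log_max_eq _ (apply_nonneg v x)]
  have g : 0 ≤ (∑ v : InfinitePlace k, (v.mult : ℝ) * log⁺ (v x)) :=
    Finset.sum_nonneg fun v _ => mul_nonneg (by positivity) posLog_nonneg
  rw [hD, e0, e1, e2, f0, f2, hh]
  linarith

theorem uval_unit {T : Finset ℕ} (hT : ∀ p ∈ T, p.Prime) (a : ℕ → ℕ) (v : FinitePlace k)
    (hv : v ∉ placesOver k T) : v ((H686R3.uval T a : ℕ) : k) = 1 := by
  unfold H686R3.uval
  push_cast
  rw [map_prod]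
  refine Finset.prod_eq_one fun p hp => ?_
  rw [map_pow]
  have : v (p : k) = 1 := by
    by_contra h
    exact hv (mem_placesOver.mpr ⟨p, hp, (hT p hp).ne_zero, h⟩)
  rw [this, one_pow]

theorem height_uval_le {T : Finset ℕ} (a : ℕ → ℕ) {A : ℕ} (ha : ∀ p ∈ T, a p ≤ A) :
    Height.logHeight₁ ((H686R3.uval T a : ℕ) : k) ≤
      A * ∑ p ∈ T, Height.logHeight₁ (p : k) := by
  unfold H686R3.uval
  push_cast
  refine (Height.logHeight₁_prod_le _ _).trans ?_
  rw [Finset.mul_sum]
  refine Finset.sum_le_sum fun p hp => ?_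
  rw [Height.logHeight₁_pow]
  have h1 : (a p : ℝ) ≤ A := by exact_mod_cast ha p hp
  exact mul_le_mul_of_nonneg_right h1 (Height.zero_le_logHeight₁ _)

/-- one good point for each large `A` -/
theorem exists_point {T : Finset ℕ} (hT : ∀ p ∈ T, p.Prime) (hcard : 2 ≤ T.card) {A : ℕ}
    (hA : (∑ p ∈ T, log p) + 1 ≤ A) :
    ∃ q : ℚ, 1 < q ∧ ((q : ℝ) - 1) * A ≤ 2 * ((∑ p ∈ T, log p) + 1) ∧
      ((Module.finrank ℚ k : ℝ) * ((T.card : ℝ) - 1)) * log A -
        (Module.finrank ℚ k : ℝ) * log (2 * ((∑ p ∈ T, log p) + 1)) ≤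
        -2 * Height.logHeight₁ (q : k) + proximity (placesOver k T) (threePoints k) (q : k) ∧
      Height.logHeight₁ (q : k) ≤ A * (2 * ∑ p ∈ T, Height.logHeight₁ (p : k)) := by
  set M : ℝ := ∑ p ∈ T, log p with hM
  have hM0 : 0 ≤ M := Finset.sum_nonneg fun p _ => Real.log_natCast_nonneg p
  have hA1r : (1 : ℝ) ≤ A := by linarith
  have hA1 : 1 ≤ A := by exact_mod_cast hA1r
  have hA0 : (0 : ℝ) < A := by linarith
  obtain ⟨a, b, ha, hb, hlt, hlog⟩ := H686R3.pigeon hT (by omega) hA1
  rw [← hM] at hlog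
  set u := H686R3.uval T a with hu
  set w := H686R3.uval T b with hw
  have hu0 : 0 < u := H686R3.uval_pos hT a
  have hw0 : 0 < w := H686R3.uval_pos hT b
  have hu0r : (0 : ℝ) < u := by exact_mod_cast hu0
  have hw0r : (0 : ℝ) < w := by exact_mod_cast hw0
  have hltr : (w : ℝ) < u := by exact_mod_cast hlt
  -- the bound for `δ`
  obtain ⟨s, hs⟩ : ∃ s, T.card = s + 2 := ⟨T.card - 2, by omega⟩
  have hpow : (A : ℝ) ^ T.card = A * A ^ (s + 1) := by rw [hs]; ring
  have hApow : (A : ℝ) ≤ A ^ (s + 1) := by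
    calc (A : ℝ) = A ^ 1 := (pow_one _).symm
      _ ≤ A ^ (s + 1) := pow_le_pow_right₀ hA1r (by omega)
  have hAp0 : (0 : ℝ) < (A : ℝ) ^ (s + 1) := by positivity
  set δ : ℝ := (M + 1) / (A : ℝ) ^ (s + 1) with hδ
  have hδ0 : 0 < δ := by positivity
  have hδ1 : δ ≤ 1 := by
    rw [hδ, div_le_one hAp0]; linarith
  have hlog2 : log (u : ℝ) - log (w : ℝ) ≤ δ := by
    refine hlog.trans ?_
    rw [hpow, hδ, div_le_div_iff₀ (by positivity) hAp0]
    have : (A : ℝ) * M + 1 ≤ (M + 1) * A := by nlinarith
    calc ((A : ℝ) * M + 1) * A ^ (s + 1) ≤ ((M + 1) * A) * A ^ (s + 1) :=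
          mul_le_mul_of_nonneg_right this hAp0.le
      _ = (M + 1) * (A * A ^ (s + 1)) := by ring
  set ε : ℝ := (u : ℝ) / w - 1 with hε
  have hε0 : 0 < ε := by
    rw [hε, sub_pos, lt_div_iff₀ hw0r]; linarith
  have hε2 : ε ≤ 2 * δ := by
    have h1 : (u : ℝ) / w = exp (log u - log w) := by
      rw [exp_sub, exp_log hu0r, exp_log hw0r]
    have h2 : exp (log u - log w) ≤ exp δ := exp_le_exp.mpr hlog2
    have h3 := Real.abs_exp_sub_one_le (x := δ) (by rw [abs_of_pos hδ0]; exact hδ1)
    rw [abs_of_pos hδ0] at h3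
    have h4 := le_abs_self (exp δ - 1)
    rw [hε, h1]
    linarith
  refine ⟨(u : ℚ) / w, ?_, ?_, ?_, ?_⟩
  · rw [lt_div_iff₀ (by exact_mod_cast hw0), one_mul]
    exact_mod_cast hlt
  · have h1 : (((u : ℚ) / w : ℚ) : ℝ) - 1 = ε := by rw [hε]; push_cast; ring
    rw [h1]
    have h2 : δ * A ≤ M + 1 := by
      rw [hδ, div_mul_eq_mul_div, div_le_iff₀ hAp0]
      exact mul_le_mul_of_nonneg_left hApow (by linarith)
    nlinarith
  · have hk : ((((u : ℚ) / w : ℚ)) : k) = (u : k) / (w : k) := by push_cast; ring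
    have huk : ((u : ℕ) : k) ≠ 0 := by exact_mod_cast hu0.ne'
    have hwk : ((w : ℕ) : k) ≠ 0 := by exact_mod_cast hw0.ne'
    have hne1 : ((((u : ℚ) / w : ℚ)) : k) ≠ 1 := by
      rw [hk, Ne, div_eq_one_iff_eq hwk]
      intro h
      have : u = w := by exact_mod_cast h
      omega
    have key := main_ineq (placesOver k T) ((((u : ℚ) / w : ℚ)) : k)
      (by rw [hk]; exact div_ne_zero huk hwk) ?_ ε hne1 ?_
    · refine le_trans ?_ key
      have hlogε : log ε ≤ log (2 * (M + 1)) - ((T.card : ℝ) - 1) * log A := by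
        calc log ε ≤ log (2 * δ) := log_le_log hε0 hε2
          _ = log (2 * (M + 1)) - ((T.card : ℝ) - 1) * log A := by
            rw [hδ, ← mul_div_assoc, log_div (by positivity) (by positivity), log_pow, hs]
            push_cast
            ring
      have hd : (0 : ℝ) ≤ (Module.finrank ℚ k : ℝ) := by positivity
      have := mul_le_mul_of_nonneg_left hlogε hd
      linarith
    · intro v hv
      rw [hk, map_div₀, hu, hw, uval_unit hT a v hv, uval_unit hT b v hv, div_one]
    · intro v
      have : ((((u : ℚ) / w : ℚ)) : k) - 1 = (((u : ℚ) / w - 1 : ℚ) : k) := by push_cast; ring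
      rw [this, InfinitePlace.map_ratCast, hε]
      have h0 : (0 : ℝ) ≤ (((u : ℚ) / w - 1 : ℚ) : ℝ) := by
        push_cast
        exact hε0.le
      rw [show ‖((u : ℚ) / w - 1 : ℚ)‖ = |(((u : ℚ) / w - 1 : ℚ) : ℝ)| from rfl, abs_of_nonneg h0]
      push_cast
      rfl
  · have hk : ((((u : ℚ) / w : ℚ)) : k) = (u : k) * (w : k)⁻¹ := by push_cast; ring
    rw [hk]
    refine (Height.logHeight₁_mul_le _ _).trans ?_
    rw [Height.logHeight₁_inv]
    have h1 := height_uval_le (k := k) a ha
    have h2 := height_uval_le (k := k) b hb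
    rw [hu, hw]
    linarith

end

/-- **The constant in the logarithmic error term must depend on `S`.**
Let `k` be any number field, `X = P¹` over `k`, `D = [0] + [1] + [∞]`, `A = O(1)`.  For a finite
set `T` of rational primes let `S` be the set of all infinite places of `k` and all finite places
above the primes in `T`.  Then for every `C` with `0 < C < [k : ℚ] (|T| - 1)` and every real `B`,
there are infinitely many `x ∈ k`, `x ≠ 0, 1` (rational points, so `k_x = k` and
`d(x) = log |Disc k|`) with `h_K(x) + m_S(D, x) ≥ C log⁺ h(x) + d(x) + B`. -/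
theorem result (k : Type*) [Field k] [NumberField k] (T : Finset ℕ) (hT : ∀ p ∈ T, p.Prime)
    (C B : ℝ) (hC0 : 0 < C) (hC : C < (Module.finrank ℚ k : ℝ) * ((T.card : ℝ) - 1)) :
    {x : k | x ≠ 0 ∧ x ≠ 1 ∧
      C * log⁺ (Height.logHeight₁ x) + log |(discr k : ℝ)| + B ≤
        -2 * Height.logHeight₁ x + proximity (placesOver k T) (threePoints k) x}.Infinite := by
  set Z := {x : k | x ≠ 0 ∧ x ≠ 1 ∧
      C * log⁺ (Height.logHeight₁ x) + log |(discr k : ℝ)| + B ≤
        -2 * Height.logHeight₁ x + proximity (placesOver k T) (threePoints k) x} with hZ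
  have hd : (0 : ℝ) < (Module.finrank ℚ k : ℝ) := by
    exact_mod_cast Module.finrank_pos
  have hcard : 2 ≤ T.card := by
    by_contra h
    have h1 : (T.card : ℝ) ≤ 1 := by
      have : T.card ≤ 1 := by omega
      exact_mod_cast this
    have : (Module.finrank ℚ k : ℝ) * ((T.card : ℝ) - 1) ≤ 0 :=
      mul_nonpos_of_nonneg_of_nonpos hd.le (by linarith)
    linarith
  set M : ℝ := ∑ p ∈ T, log p with hM
  have hM0 : 0 ≤ M := Finset.sum_nonneg fun p _ => Real.log_natCast_nonneg p
  set L : ℝ := 2 * ∑ p ∈ T, Height.logHeight₁ (p : k) with hL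
  have hL0 : 0 ≤ L := by
    have := Finset.sum_nonneg fun p (_ : p ∈ T) => Height.zero_le_logHeight₁ (p : k)
    linarith
  set κ : ℝ := (Module.finrank ℚ k : ℝ) * ((T.card : ℝ) - 1) - C with hκ
  have hκ0 : 0 < κ := by linarith
  set K : ℝ := C * log⁺ L + log |(discr k : ℝ)| + B +
    (Module.finrank ℚ k : ℝ) * log (2 * (M + 1)) with hK
  -- for every `η > 0` there is a point of `Z` in `(1, 1 + η)`
  have claim : ∀ η : ℝ, 0 < η → ∃ q : ℚ, (q : k) ∈ Z ∧ 1 < q ∧ (q : ℝ) < 1 + η := by
    intro η hη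
    obtain ⟨A, hA⟩ := exists_nat_gt (max (M + 1) (max (2 * (M + 1) / η) (exp (K / κ))))
    have hA1 : M + 1 < A := (le_max_left _ _).trans_lt hA
    have hA2 : 2 * (M + 1) / η < A := ((le_max_left _ _).trans (le_max_right _ _)).trans_lt hA
    have hA3 : exp (K / κ) < A := ((le_max_right _ _).trans (le_max_right _ _)).trans_lt hA
    have hA0 : (0 : ℝ) < A := by linarith
    have hA1' : (1 : ℝ) ≤ A := by linarith
    obtain ⟨q, hq1, hq2, hq3, hq4⟩ := exists_point (k := k) hT hcard (A := A) hA1.le
    rw [← hM] at hq2 hq3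
    rw [← hL] at hq4
    refine ⟨q, ⟨?_, ?_, ?_⟩, hq1, ?_⟩
    · have : q ≠ 0 := by linarith
      exact_mod_cast this
    · have : q ≠ 1 := hq1.ne'
      exact_mod_cast this
    · have hlogA : K / κ ≤ log A := by
        rw [← Real.log_exp (K / κ)]
        exact log_le_log (exp_pos _) hA3.le
      rw [div_le_iff₀ hκ0] at hlogA
      have h1 : log⁺ (Height.logHeight₁ (q : k)) ≤ log A + log⁺ L := by
        calc log⁺ (Height.logHeight₁ (q : k)) ≤ log⁺ ((A : ℝ) * L) :=
              posLog_le_posLog (Height.zero_le_logHeight₁ _) hq4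
          _ ≤ log⁺ (A : ℝ) + log⁺ L := posLog_mul
          _ = log A + log⁺ L := by
              rw [posLog_eq_log (by rw [abs_of_pos hA0]; exact hA1')]
      have h2 := mul_le_mul_of_nonneg_left h1 hC0.le
      refine le_trans ?_ hq3
      rw [hK, hκ] at hlogA
      nlinarith
    · have h1 : 2 * (M + 1) < A * η := by rwa [div_lt_iff₀ hη] at hA2
      have h2 : ((q : ℝ) - 1) * A < η * A := by linarith
      have h3 := lt_of_mul_lt_mul_right h2 hA0.le
      linarith
  intro hfin
  set Q : Set ℚ := {q : ℚ | (q : k) ∈ Z ∧ 1 < q} with hQ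
  have hQfin : Q.Finite := by
    refine Set.Finite.subset (hfin.preimage (f := fun q : ℚ => (q : k)) ?_) ?_
    · intro x _ y _ hxy
      exact Rat.cast_injective (α := k) hxy
    · rintro q ⟨hq, _⟩
      exact hq
  obtain ⟨q1, hq1Z, hq1, _⟩ := claim 1 one_pos
  obtain ⟨q0, hq0, hmin⟩ := Set.exists_min_image Q id hQfin ⟨q1, hq1Z, hq1⟩
  have hq0' : (1 : ℝ) < (q0 : ℝ) := by exact_mod_cast hq0.2
  obtain ⟨q2, hq2Z, hq2, hlt⟩ := claim ((q0 : ℝ) - 1) (by linarith)
  have h := hmin q2 ⟨hq2Z, hq2⟩
  simp only [id] at h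
  have h' : (q0 : ℝ) ≤ (q2 : ℝ) := by exact_mod_cast h
  linarith

end Pool.Agent.Results.MP_e44225_nt.LogTermDependsOnS
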